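import Mathlib

/-!
# Rainbow triangles with pendant edges: palettes
-/

namespace Pool.Agent.H29.AR

open Finset

/-- `c` is a proper edge colouring of `G`. -/
def IsProper {W : Type} (G : SimpleGraph W) (c : Sym2 W → ℕ) : Prop :=
  ∀ v w w', G.Adj v w → G.Adj v w' → w ≠ w' → c s(v, w) ≠ c s(v, w')

/-- `G` coloured by `c` contains a rainbow copy of `H`. -/
def HasRainbow {V W : Type} (H : SimpleGraph V) (G : SimpleGraph W) (c : Sym2 W → ℕ) : Prop :=
  ∃ φ : V → W, Function.Injective φ ∧ (∀ u v, H.Adj u v → G.Adj (φ u) (φ v)) ∧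
    Set.InjOn (fun e : Sym2 V => c (e.map φ)) H.edgeSet

/-- The triangle with vertices `inl 0, inl 1, inl 2` and `n i` pendant edges at `inl i`. -/
def triPend (n : Fin 3 → ℕ) : SimpleGraph (Fin 3 ⊕ (Σ i, Fin (n i))) :=
  SimpleGraph.fromRel (fun u v =>
    (∃ i j, u = Sum.inl i ∧ v = Sum.inl j) ∨ ∃ i, ∃ k : Fin (n i), u = Sum.inl i ∧ v = Sum.inr ⟨i, k⟩)

lemma edge_cases (n : Fin 3 → ℕ) (e : Sym2 (Fin 3 ⊕ (Σ i, Fin (n i)))) (he : e ∈ (triPend n).edgeSet) :
    (∃ i : Fin 3, e = s(Sum.inl (i + 1), Sum.inl (i + 2))) ∨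
      ∃ p : (Σ i, Fin (n i)), e = s(Sum.inl p.1, Sum.inr p) := by
  induction e using Sym2.ind with
  | _ u v =>
    rw [SimpleGraph.mem_edgeSet] at he
    rw [triPend, SimpleGraph.fromRel_adj] at he
    obtain ⟨hne, h⟩ := he
    have key : ∀ i j : Fin 3, i ≠ j → ∃ k : Fin 3, (i = k + 1 ∧ j = k + 2) ∨ (i = k + 2 ∧ j = k + 1) := by
      decide
    have main : ∀ u v : (Fin 3 ⊕ (Σ i, Fin (n i))), u ≠ v →
        ((∃ i j, u = Sum.inl i ∧ v = Sum.inl j) ∨ ∃ i, ∃ k : Fin (n i), u = Sum.inl i ∧ v = Sum.inr ⟨i, k⟩) →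
        (∃ i : Fin 3, s(u, v) = s(Sum.inl (i + 1), Sum.inl (i + 2))) ∨
          ∃ p : (Σ i, Fin (n i)), s(u, v) = s(Sum.inl p.1, Sum.inr p) := by
      rintro u v hne (⟨i, j, rfl, rfl⟩ | ⟨i, k, rfl, rfl⟩)
      · have hij : i ≠ j := fun h => hne (by rw [h])
        obtain ⟨k, ⟨rfl, rfl⟩ | ⟨rfl, rfl⟩⟩ := key i j hij
        · exact Or.inl ⟨k, rfl⟩
        · exact Or.inl ⟨k, Sym2.eq_swap⟩
      · exact Or.inr ⟨⟨i, k⟩, rfl⟩
    rcases h with h | h
    · exact main u v hne h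
    · have := main v u hne.symm h
      rwa [Sym2.eq_swap] at this

variable {W : Type} [Fintype W] [DecidableEq W] (G : SimpleGraph W) [DecidableRel G.Adj]

/-- the palette of a vertex -/
def pal (c : Sym2 W → ℕ) (v : W) : Finset ℕ := (G.neighborFinset v).image (fun w => c s(v, w))

lemma mem_pal {c : Sym2 W → ℕ} {v : W} {x : ℕ} : x ∈ pal G c v ↔ ∃ w, G.Adj v w ∧ c s(v, w) = x := by
  simp [pal]

lemma card_pal {c : Sym2 W → ℕ} (hc : IsProper G c) (v : W) : (pal G c v).card = G.degree v := by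
  unfold pal
  rw [card_image_of_injOn, SimpleGraph.card_neighborFinset_eq_degree]
  intro w hw w' hw' h
  by_contra hne
  rw [mem_coe, SimpleGraph.mem_neighborFinset] at hw hw'
  exact hc v w w' hw hw' hne h

theorem build_copy {c : Sym2 W → ℕ} (hc : IsProper G c) (n : Fin 3 → ℕ) (v : Fin 3 → W)
    (hv : ∀ i j, i ≠ j → G.Adj (v i) (v j))
    (hcom : ∀ i j, i ≠ j → 0 < n i → 0 < n j → ∀ w, G.Adj (v i) w → G.Adj (v j) w → w ∈ Set.range v)
    (Tri : Finset ℕ) (hTri : Tri = univ.image (fun i : Fin 3 => c s(v (i + 1), v (i + 2))))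
    (f : (Σ i, Fin (n i)) → ℕ) (hfinj : Function.Injective f) (hfp : ∀ p, f p ∈ pal G c (v p.1))
    (hfTri : ∀ p, f p ∉ Tri) : HasRainbow (triPend n) G c := by
  have hw : ∀ p : (Σ i, Fin (n i)), ∃ w, G.Adj (v p.1) w ∧ c s(v p.1, w) = f p :=
    fun p => (mem_pal G).1 (hfp p)
  choose g hg1 hg2 using hw
  have hvinj : Function.Injective v := by
    intro a b hab
    by_contra hne
    have := hv a b hne
    rw [hab] at this
    exact G.loopless.irrefl _ this
  have h3 : ∀ a b : Fin 3, a ≠ b → c s(v a, v b) ∈ Tri := by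
    intro a b hab
    have key : ∀ i j : Fin 3, i ≠ j → ∃ k : Fin 3, (i = k + 1 ∧ j = k + 2) ∨ (i = k + 2 ∧ j = k + 1) := by
      decide
    obtain ⟨k, ⟨rfl, rfl⟩ | ⟨rfl, rfl⟩⟩ := key a b hab
    · rw [hTri]; exact mem_image_of_mem _ (mem_univ k)
    · rw [Sym2.eq_swap, hTri]
      exact mem_image_of_mem _ (mem_univ k)
  have hgv : ∀ p a, g p ≠ v a := by
    intro p a hpa
    have h1 := hg1 p
    rw [hpa] at h1
    have hne : p.1 ≠ a := by
      rintro rfl
      exact G.loopless.irrefl _ h1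
    apply hfTri p
    rw [← hg2 p, hpa]
    exact h3 _ _ hne
  have hgg : ∀ p q, g p = g q → p = q := by
    intro p q hpq
    by_cases h : p.1 = q.1
    · apply hfinj
      rw [← hg2 p, ← hg2 q, hpq, h]
    · exfalso
      have h1 := hg1 p
      have h2 := hg1 q
      rw [hpq] at h1
      obtain ⟨a, ha⟩ := hcom _ _ h (Nat.pos_of_ne_zero fun h0 => (Fin.cast h0 p.2).elim0) (Nat.pos_of_ne_zero fun h0 => (Fin.cast h0 q.2).elim0) _ h1 h2
      exact hgv q a ha.symm
  refine ⟨Sum.elim v g, ?_, ?_, ?_⟩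
  · rintro (a | p) (b | q) h
    · exact congrArg _ (hvinj h)
    · exact absurd h.symm (hgv q a)
    · exact absurd h (hgv p b)
    · exact congrArg _ (hgg p q h)
  · intro a b hab
    have hmem : s(a, b) ∈ (triPend n).edgeSet := hab
    rcases edge_cases n _ hmem with ⟨k, hk⟩ | ⟨p, hp⟩
    · have h12 : ∀ k : Fin 3, k + 1 ≠ k + 2 := by decide
      rw [Sym2.eq_iff] at hk
      rcases hk with ⟨rfl, rfl⟩ | ⟨rfl, rfl⟩
      · exact hv _ _ (h12 k)
      · exact hv _ _ (h12 k).symm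
    · rw [Sym2.eq_iff] at hp
      rcases hp with ⟨rfl, rfl⟩ | ⟨rfl, rfl⟩
      · exact hg1 p
      · exact (hg1 p).symm
  · intro e he e' he' hcc
    simp only at hcc
    rcases edge_cases n _ he with ⟨k, rfl⟩ | ⟨p, rfl⟩ <;> rcases edge_cases n _ he' with ⟨l, rfl⟩ | ⟨q, rfl⟩
    · simp only [Sym2.map_mk, Sum.elim_inl] at hcc
      by_contra hne
      have hkl : k ≠ l := fun h => hne (by rw [h])
      -- two distinct edges of the triangle share a vertex
      have key : ∀ k l : Fin 3, k ≠ l → (k + 1 = l + 2 ∧ k + 2 ≠ l + 1) ∨ (k + 2 = l + 1 ∧ k + 1 ≠ l + 2) := by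
        decide
      rcases key k l hkl with ⟨h1, h2⟩ | ⟨h1, h2⟩
      · rw [h1, Sym2.eq_swap (a := v (l + 1))] at hcc
        have h5 : ∀ k l : Fin 3, k + 1 = l + 2 → l + 2 ≠ k + 2 := by decide
        have h6 : ∀ l : Fin 3, l + 2 ≠ l + 1 := by decide
        exact hc _ _ _ (hv _ _ (h5 k l h1)) (hv _ _ (h6 l)) (fun h => h2 (hvinj h)) hcc
      · rw [h1, Sym2.eq_swap (b := v (l + 1))] at hcc
        have h5 : ∀ k l : Fin 3, k + 2 = l + 1 → l + 1 ≠ k + 1 := by decide
        have h6 : ∀ l : Fin 3, l + 1 ≠ l + 2 := by decide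
        exact hc _ _ _ (hv _ _ (h5 k l h1)) (hv _ _ (h6 l)) (fun h => h2 (hvinj h)) hcc
    · exfalso
      simp only [Sym2.map_mk, Sum.elim_inl, Sum.elim_inr] at hcc
      apply hfTri q
      rw [← hg2 q, ← hcc, hTri]
      exact mem_image_of_mem _ (mem_univ k)
    · exfalso
      simp only [Sym2.map_mk, Sum.elim_inl, Sum.elim_inr] at hcc
      apply hfTri p
      rw [← hg2 p, hcc, hTri]
      exact mem_image_of_mem _ (mem_univ l)
    · simp only [Sym2.map_mk, Sum.elim_inl, Sum.elim_inr] at hcc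
      rw [hg2 p, hg2 q] at hcc
      rw [hfinj hcc]


theorem tri_palette {c : Sym2 W → ℕ} (hc : IsProper G c) (n : Fin 3 → ℕ)
    (hno : ¬ HasRainbow (triPend n) G c) (v : Fin 3 → W)
    (hv : ∀ i j, i ≠ j → G.Adj (v i) (v j))
    (hcom : ∀ i j, i ≠ j → ∀ w, G.Adj (v i) w → G.Adj (v j) w → w ∈ Set.range v)
    {S : ℕ} (hS : S = ∑ i, n i)
    (hdeg : ∀ i, G.degree (v i) = S + 2) (i j : Fin 3) (hi : 0 < n i) (hj : 0 < n j) :
    pal G c (v i) = pal G c (v j) := by
  classical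
  obtain ⟨Tri, hTri⟩ : ∃ T : Finset ℕ, T = univ.image (fun i : Fin 3 => c s(v (i + 1), v (i + 2))) := ⟨_, rfl⟩
  have hcardTri : Tri.card ≤ 3 := by
    rw [hTri]
    refine card_image_le.trans ?_
    rw [card_univ, Fintype.card_fin]
  obtain ⟨A, hA⟩ : ∃ A : Fin 3 → Finset ℕ, ∀ i, A i = pal G c (v i) \ Tri := ⟨fun i => pal G c (v i) \ Tri, fun _ => rfl⟩
  have hAcard : ∀ i, S - 1 ≤ (A i).card := by
    intro i
    have h1 := le_card_sdiff Tri (pal G c (v i))
    rw [card_pal G hc, hdeg, ← hA] at h1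
    omega
  -- Hall's condition fails
  have hHall : ¬ ∀ s : Finset (Σ i, Fin (n i)), s.card ≤ (s.biUnion (fun p => A p.1)).card := by
    intro hall
    obtain ⟨f, hfinj, hf⟩ := (Finset.all_card_le_biUnion_card_iff_exists_injective
      (fun p : (Σ i, Fin (n i)) => A p.1)).1 hall
    have hf' : ∀ p, f p ∈ pal G c (v p.1) ∧ f p ∉ Tri := fun p => by
      have := hf p
      rw [hA] at this
      exact mem_sdiff.1 this
    exact hno (build_copy G hc n v hv (fun i j h _ _ => hcom i j h) Tri hTri f hfinj (fun p => (hf' p).1) (fun p => (hf' p).2))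
  rw [not_forall] at hHall
  obtain ⟨s, hs⟩ := hHall
  rw [not_le] at hs
  have hScard : Fintype.card (Σ i, Fin (n i)) = S := by
    rw [Fintype.card_sigma, hS]
    exact Finset.sum_congr rfl fun i _ => Fintype.card_fin _
  obtain ⟨B, hB⟩ : ∃ B : Finset ℕ, B = s.biUnion (fun p => A p.1) := ⟨_, rfl⟩
  rw [← hB] at hs
  have hsne : s.Nonempty := by
    rw [← card_pos]
    omega
  obtain ⟨p0, hp0⟩ := hsne
  have hle : s.card ≤ S := by
    rw [← hScard]; exact card_le_univ s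
  have hsub : ∀ p ∈ s, A p.1 ⊆ B := by
    intro p hp
    rw [hB]
    exact subset_biUnion_of_mem (fun p : (Σ i, Fin (n i)) => A p.1) hp
  have h1 : (A p0.1).card ≤ B.card := card_le_card (hsub p0 hp0)
  have h2 := hAcard p0.1
  have hsum : s.card = S := by omega
  have hsuniv : s = univ := by
    rw [← card_eq_iff_eq_univ, hScard, hsum]
  have hBcard : B.card ≤ S - 1 := by omega
  have hAeq : ∀ k, 0 < n k → A k = B ∧ (A k).card = S - 1 := by
    intro k hk
    have hsub' : A k ⊆ B := hsub ⟨k, ⟨0, hk⟩⟩ (by rw [hsuniv]; exact mem_univ _)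
    have h3 := hAcard k
    have h4 := card_le_card hsub'
    exact ⟨eq_of_subset_of_card_le hsub' (by omega), by omega⟩
  have hSpos : 0 < S := by
    have := Finset.single_le_sum (f := n) (fun k _ => Nat.zero_le _) (mem_univ i)
    omega
  have hpal : ∀ k, 0 < n k → pal G c (v k) = B ∪ Tri := by
    intro k hk
    have h5 : pal G c (v k) ⊆ B ∪ Tri := by
      intro x hx
      rw [mem_union]
      by_cases hxT : x ∈ Tri
      · exact Or.inr hxT
      · left
        rw [← (hAeq k hk).1, hA]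
        exact mem_sdiff.2 ⟨hx, hxT⟩
    refine eq_of_subset_of_card_le h5 ?_
    rw [card_pal G hc, hdeg]
    have h6 := card_union_le B Tri
    omega
  rw [hpal i hi, hpal j hj]

end Pool.Agent.H29.AR
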