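import Pool.Agent.H29.AR.Core

namespace Pool.Agent.H29.AR

open Finset

lemma even_card_of_involution {α : Type} [Fintype α] (g : α → α) (hg : ∀ a, g (g a) = a)
    (hne : ∀ a, g a ≠ a) : Even (Fintype.card α) := by
  have h := Finset.sum_involution (s := (univ : Finset α)) (f := fun _ => (1 : ZMod 2)) (fun a _ => g a)
    (fun a _ => by decide) (fun a _ _ => hne a) (fun a _ => mem_univ _) (fun a _ => hg a)
  rw [Finset.sum_const, card_univ, nsmul_eq_mul, mul_one] at h
  rwa [ZMod.natCast_eq_zero_iff_even] at h

/-- In a properly coloured graph in which every vertex sees the colour `x`, the number of vertices is even. -/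
lemma even_card_of_color {W : Type} [Fintype W] (G : SimpleGraph W) {c : Sym2 W → ℕ} (hc : IsProper G c)
    (x : ℕ) (h : ∀ v, ∃ w, G.Adj v w ∧ c s(v, w) = x) : Even (Fintype.card W) := by
  choose g hg1 hg2 using h
  refine even_card_of_involution g (fun a => ?_) (fun a ha => ?_)
  · by_contra hne
    refine hc (g a) (g (g a)) a (hg1 _) (hg1 a).symm hne ?_
    rw [hg2, Sym2.eq_swap, hg2]
  · have := hg1 a
    rw [ha] at this
    exact G.loopless.irrefl _ this

lemma exists_perm : ∀ i j a b : Fin 3, i ≠ j → a ≠ b → ∃ σ : Equiv.Perm (Fin 3), σ i = a ∧ σ j = b := by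
  decide

/-- palettes along a line. -/
theorem line_palette {W : Type} [Fintype W] [DecidableEq W] (G : SimpleGraph W) [DecidableRel G.Adj]
    {c : Sym2 W → ℕ} (hc : IsProper G c) (n : Fin 3 → ℕ)
    (hno : ¬ HasRainbow (triPend n) G c) (l : Fin 3 → W)
    (hl : ∀ a b, a ≠ b → G.Adj (l a) (l b))
    (hcom : ∀ a b, a ≠ b → ∀ w, G.Adj (l a) w → G.Adj (l b) w → w ∈ Set.range l)
    {S : ℕ} (hS : S = ∑ i, n i) (hdeg : ∀ a, G.degree (l a) = S + 2)
    {i j : Fin 3} (hij : i ≠ j) (hi : 0 < n i) (hj : 0 < n j) (a b : Fin 3) :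
    pal G c (l a) = pal G c (l b) := by
  by_cases hab : a = b
  · rw [hab]
  obtain ⟨σ, h1, h2⟩ := exists_perm i j a b hij hab
  have := tri_palette G hc n hno (fun m => l (σ m)) (fun p q hpq => hl _ _ (fun h => hpq (σ.injective h)))
    (fun p q hpq w hw1 hw2 => by
      obtain ⟨m, hm⟩ := hcom (σ p) (σ q) (fun h => hpq (σ.injective h)) w hw1 hw2
      exact ⟨σ.symm m, by simpa using hm⟩) hS (fun m => hdeg _) i j hi hj
  simpa [h1, h2] using this

/-- The Hamming graph with `d` coordinates over `Fin 3`. -/
def ham (d : ℕ) : SimpleGraph (Fin d → Fin 3) where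
  Adj u v := ∃ i, u i ≠ v i ∧ ∀ j, j ≠ i → u j = v j
  symm := ⟨fun u v ⟨i, h1, h2⟩ => ⟨i, h1.symm, fun j hj => (h2 j hj).symm⟩⟩
  loopless := ⟨fun u ⟨i, h1, _⟩ => h1 rfl⟩

instance (d : ℕ) : DecidableRel (ham d).Adj := fun u v => by unfold ham; exact inferInstance

lemma ham_adj_update {d : ℕ} (u : Fin d → Fin 3) (i : Fin d) {a b : Fin 3} (hab : a ≠ b) :
    (ham d).Adj (Function.update u i a) (Function.update u i b) :=
  ⟨i, by simpa using hab, fun j hj => by simp [hj]⟩

lemma ham_common {d : ℕ} (u : Fin d → Fin 3) (i : Fin d) {a b : Fin 3} (hab : a ≠ b) (w : Fin d → Fin 3)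
    (h1 : (ham d).Adj (Function.update u i a) w) (h2 : (ham d).Adj (Function.update u i b) w) :
    w = Function.update u i (w i) := by
  obtain ⟨j, hj1, hj2⟩ := h1
  obtain ⟨k, hk1, hk2⟩ := h2
  by_cases hji : j = i
  · subst hji
    funext m
    by_cases hm : m = j
    · subst hm; simp
    · have := hj2 m hm
      simp [hm] at this
      simp [hm, this]
  · exfalso
    have e1 := hj2 i (fun h => hji h.symm)
    simp at e1
    have hki : k = i := by
      by_contra hki
      have e2 := hk2 i (fun h => hki h.symm)
      simp at e2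
      exact hab (e1.trans e2.symm)
    subst hki
    have e3 := hk2 j hji
    simp [hji] at e3 hj1
    exact hj1 e3

lemma ham_degree (d : ℕ) (u : Fin d → Fin 3) : (ham d).degree u = 2 * d := by
  classical
  rw [← SimpleGraph.card_neighborFinset_eq_degree]
  have : (ham d).neighborFinset u =
      (univ : Finset (Fin d)).biUnion (fun i => (univ.filter (fun a => a ≠ u i)).image (fun a => Function.update u i a)) := by
    ext w
    simp only [SimpleGraph.mem_neighborFinset, mem_biUnion, mem_univ, true_and, mem_image, mem_filter]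
    constructor
    · rintro ⟨i, h1, h2⟩
      refine ⟨i, w i, h1.symm, ?_⟩
      funext m
      by_cases hm : m = i
      · subst hm; simp
      · simp [hm, h2 m hm]
    · rintro ⟨i, a, ha, rfl⟩
      exact ⟨i, by simpa using ha.symm, fun j hj => by simp [hj]⟩
  rw [this, card_biUnion]
  · have h2 : ∀ i ∈ (univ : Finset (Fin d)), ((univ.filter (fun a => a ≠ u i)).image (fun a => Function.update u i a)).card = 2 := by
      intro i _
      rw [card_image_of_injective _ (Function.update_injective u i)]
      generalize u i = z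
      revert z
      decide
    rw [sum_congr rfl h2, sum_const, card_univ, Fintype.card_fin, smul_eq_mul, mul_comm]
  · intro i _ j _ hij
    rw [Function.onFun, disjoint_left]
    intro w hw1 hw2
    simp only [mem_image, mem_filter, mem_univ, true_and] at hw1 hw2
    obtain ⟨a, ha, rfl⟩ := hw1
    obtain ⟨b, hb, hb2⟩ := hw2
    have := congrFun hb2 i
    simp [hij] at this
    exact ha this.symm

/-- a function on the Hamming cube which is invariant under updates is constant -/
lemma const_of_update {d : ℕ} {β : Type} (F : (Fin d → Fin 3) → β)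
    (h : ∀ u i a, F (Function.update u i a) = F u) (u v : Fin d → Fin 3) : F u = F v := by
  classical
  have key : ∀ s : Finset (Fin d), F (s.piecewise v u) = F u := by
    intro s
    induction s using Finset.induction_on with
    | empty => simp
    | insert a s ha ih => rw [Finset.piecewise_insert, h, ih]
  have := key univ
  rw [Finset.piecewise_univ] at this
  exact this.symm

theorem even_host (n : Fin 3 → ℕ) {i j : Fin 3} (hij : i ≠ j) (hi : 0 < n i) (hj : 0 < n j) {d : ℕ}
    (hd : 2 * d = (∑ i, n i) + 2) (c : Sym2 (Fin d → Fin 3) → ℕ) (hc : IsProper (ham d) c) :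
    HasRainbow (triPend n) (ham d) c := by
  classical
  by_contra hno
  have hupd : ∀ (u : Fin d → Fin 3) (k : Fin d) (a : Fin 3),
      pal (ham d) c (Function.update u k a) = pal (ham d) c u := by
    intro u k a
    have := line_palette (ham d) hc n hno (fun b => Function.update u k b)
      (fun a b hab => ham_adj_update u k hab)
      (fun a b hab w h1 h2 => ⟨w k, (ham_common u k hab w h1 h2).symm⟩) rfl
      (fun b => by rw [ham_degree, hd]) hij hi hj a (u k)
    simpa using this
  have hall : ∀ u v, pal (ham d) c u = pal (ham d) c v := const_of_update _ hupd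
  have hpos : 0 < (pal (ham d) c (fun _ => 0)).card := by
    rw [card_pal _ hc, ham_degree, hd]; omega
  obtain ⟨x, hx⟩ := card_pos.1 hpos
  have hev := even_card_of_color (ham d) hc x (fun v => (mem_pal (ham d)).1 (by rw [hall v (fun _ => 0)]; exact hx))
  rw [Fintype.card_fun, Fintype.card_fin, Fintype.card_fin, Nat.even_pow] at hev
  exact absurd hev.1 (by decide)

end Pool.Agent.H29.AR
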