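import Pool.Agent.H29.AR.Even

namespace Pool.Agent.H29.AR

open Finset

/-- the two ends of the removed edge -/
def pp (d : ℕ) : Fin d → Fin 3 := fun _ => 0

def qq {d : ℕ} (i0 : Fin d) : Fin d → Fin 3 := Function.update (pp d) i0 1

/-- the removed pair -/
def Rem {d : ℕ} (i0 : Fin d) (u v : Fin d → Fin 3) (b : Bool) : Prop :=
  b = false ∧ ((u = pp d ∧ v = qq i0) ∨ (u = qq i0 ∧ v = pp d))

lemma Rem.symm {d : ℕ} {i0 : Fin d} {u v : Fin d → Fin 3} {b : Bool} (h : Rem i0 u v b) : Rem i0 v u b := by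
  rcases h with ⟨hb, ⟨h1, h2⟩ | ⟨h1, h2⟩⟩
  · exact ⟨hb, Or.inr ⟨h2, h1⟩⟩
  · exact ⟨hb, Or.inl ⟨h2, h1⟩⟩

lemma pp_ne_qq {d : ℕ} (i0 : Fin d) : pp d ≠ qq i0 := by
  intro h
  have := congrFun h i0
  simp [pp, qq] at this

/-- Two copies of the Hamming graph joined by a perfect matching, with one edge of the first copy
subdivided. -/
def oddHost {d : ℕ} (i0 : Fin d) : SimpleGraph (Option ((Fin d → Fin 3) × Bool)) where
  Adj x y := match x, y with
    | none, none => False
    | none, some w => w.2 = false ∧ (w.1 = pp d ∨ w.1 = qq i0)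
    | some w, none => w.2 = false ∧ (w.1 = pp d ∨ w.1 = qq i0)
    | some w, some z => (w.2 = z.2 ∧ (ham d).Adj w.1 z.1 ∧ ¬ Rem i0 w.1 z.1 w.2) ∨ (w.2 ≠ z.2 ∧ w.1 = z.1)
  symm := ⟨by
    rintro (_ | w) (_ | z) h
    · exact h
    · exact h
    · exact h
    · rcases h with ⟨h1, h2, h3⟩ | ⟨h1, h2⟩
      · exact Or.inl ⟨h1.symm, h2.symm, fun h => h3 (by rw [h1]; exact h.symm)⟩
      · exact Or.inr ⟨h1.symm, h2.symm⟩⟩
  loopless := ⟨by
    rintro (_ | w) h
    · exact h
    · rcases h with ⟨_, h2, _⟩ | ⟨h1, _⟩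
      · exact (ham d).loopless.irrefl _ h2
      · exact h1 rfl⟩

lemma adj_some_iff {d : ℕ} (i0 : Fin d) (u : Fin d → Fin 3) (b : Bool) (y : Option ((Fin d → Fin 3) × Bool)) :
    (oddHost i0).Adj (some (u, b)) y ↔ y = some (u, !b) ∨
      ∃ v, (ham d).Adj u v ∧ ((Rem i0 u v b ∧ y = none) ∨ (¬ Rem i0 u v b ∧ y = some (v, b))) := by
  have hpq : (ham d).Adj (pp d) (qq i0) := by
    have := ham_adj_update (pp d) i0 (a := 0) (b := 1) (by decide)
    rwa [show Function.update (pp d) i0 0 = pp d from Function.update_eq_self_iff.2 rfl] at this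
  rcases y with _ | ⟨v, b'⟩
  · constructor
    · rintro ⟨h1, h2 | h2⟩
      · simp only at h1 h2
        subst h1 h2
        exact Or.inr ⟨qq i0, hpq, Or.inl ⟨⟨rfl, Or.inl ⟨rfl, rfl⟩⟩, rfl⟩⟩
      · simp only at h1 h2
        subst h1 h2
        exact Or.inr ⟨pp d, hpq.symm, Or.inl ⟨⟨rfl, Or.inr ⟨rfl, rfl⟩⟩, rfl⟩⟩
    · rintro (h | ⟨v, _, ⟨hR, _⟩ | ⟨_, h⟩⟩)
      · exact absurd h (by simp)
      · obtain ⟨hb, ⟨h1, h2⟩ | ⟨h1, h2⟩⟩ := hR
        · exact ⟨hb, Or.inl h1⟩
        · exact ⟨hb, Or.inr h1⟩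
      · exact absurd h (by simp)
  · constructor
    · rintro (⟨h1, h2, h3⟩ | ⟨h1, h2⟩)
      · simp only at h1 h2 h3
        subst h1
        exact Or.inr ⟨v, h2, Or.inr ⟨h3, rfl⟩⟩
      · simp only at h1 h2
        subst h2
        left
        cases b <;> cases b' <;> simp_all
    · rintro (h | ⟨w, hw, ⟨_, h⟩ | ⟨hR, h⟩⟩)
      · simp only [Option.some.injEq, Prod.mk.injEq] at h
        obtain ⟨rfl, rfl⟩ := h
        exact Or.inr ⟨by simp, rfl⟩
      · exact absurd h (by simp)
      · simp only [Option.some.injEq, Prod.mk.injEq] at h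
        obtain ⟨rfl, rfl⟩ := h
        exact Or.inl ⟨rfl, hw, hR⟩

open Classical in
lemma odd_degree {d : ℕ} (i0 : Fin d) (u : Fin d → Fin 3) (b : Bool) :
    (oddHost i0).degree (some (u, b)) = 2 * d + 1 := by
  rw [← SimpleGraph.card_neighborFinset_eq_degree]
  set f : (Fin d → Fin 3) → Option ((Fin d → Fin 3) × Bool) := fun v => if Rem i0 u v b then none else some (v, b) with hf
  have h1 : (oddHost i0).neighborFinset (some (u, b)) =
      insert (some (u, !b)) (((ham d).neighborFinset u).image f) := by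
    ext y
    rw [SimpleGraph.mem_neighborFinset, adj_some_iff, mem_insert, mem_image]
    refine or_congr Iff.rfl ?_
    constructor
    · rintro ⟨v, hv, ⟨h1, h2⟩ | ⟨h1, h2⟩⟩
      · exact ⟨v, by rwa [SimpleGraph.mem_neighborFinset], by simp [hf, h1, h2]⟩
      · exact ⟨v, by rwa [SimpleGraph.mem_neighborFinset], by simp [hf, h1, h2]⟩
    · rintro ⟨v, hv, h⟩
      rw [SimpleGraph.mem_neighborFinset] at hv
      refine ⟨v, hv, ?_⟩
      by_cases hR : Rem i0 u v b
      · left; simp [hf, hR] at h; exact ⟨hR, h.symm⟩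
      · right; simp [hf, hR] at h; exact ⟨hR, h.symm⟩
  have h2 : some (u, !b) ∉ ((ham d).neighborFinset u).image f := by
    rw [mem_image]
    rintro ⟨v, hv, h⟩
    by_cases hR : Rem i0 u v b
    · simp [hf, hR] at h
    · simp [hf, hR] at h
  have h3 : Set.InjOn f ((ham d).neighborFinset u) := by
    intro v hv v' hv' h
    by_cases hR : Rem i0 u v b <;> by_cases hR' : Rem i0 u v' b
    · obtain ⟨_, ⟨h1, h2⟩ | ⟨h1, h2⟩⟩ := hR <;> obtain ⟨_, ⟨h3, h4⟩ | ⟨h3, h4⟩⟩ := hR'
      · rw [h2, h4]
      · exact absurd (h1.symm.trans h3) (pp_ne_qq i0)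
      · exact absurd (h3.symm.trans h1) (pp_ne_qq i0)
      · rw [h2, h4]
    · simp [hf, hR, hR'] at h
    · simp [hf, hR, hR'] at h
    · simpa [hf, hR, hR'] using h
  rw [h1, card_insert_of_notMem h2, card_image_of_injOn h3, SimpleGraph.card_neighborFinset_eq_degree, ham_degree]

open Classical in
/-- palettes along a line avoiding the removed edge -/
lemma odd_line (n : Fin 3 → ℕ) {i j : Fin 3} (hij : i ≠ j) (hi : 0 < n i) (hj : 0 < n j) {d : ℕ}
    (hd : 2 * d + 1 = (∑ i, n i) + 2) (i0 : Fin d) (c : Sym2 (Option ((Fin d → Fin 3) × Bool)) → ℕ)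
    (hc : IsProper (oddHost i0) c) (hno : ¬ HasRainbow (triPend n) (oddHost i0) c)
    (u : Fin d → Fin 3) (k : Fin d) (b : Bool)
    (hnr : ∀ x y, ¬ Rem i0 (Function.update u k x) (Function.update u k y) b) (a : Fin 3) :
    pal (oddHost i0) c (some (Function.update u k a, b)) = pal (oddHost i0) c (some (u, b)) := by
  have := line_palette (oddHost i0) hc n hno (fun x => some (Function.update u k x, b))
    (fun x y hxy => Or.inl ⟨rfl, ham_adj_update u k hxy, hnr x y⟩)
    (fun x y hxy w h1 h2 => by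
      rcases w with _ | ⟨w, b'⟩
      · exfalso
        obtain ⟨hb, h1⟩ := h1
        obtain ⟨_, h2⟩ := h2
        simp only at hb h1 h2
        have hne : Function.update u k x ≠ Function.update u k y := fun h => hxy (Function.update_injective u k h)
        rcases h1 with h1 | h1 <;> rcases h2 with h2 | h2
        · exact hne (h1.trans h2.symm)
        · exact hnr x y ⟨hb, Or.inl ⟨h1, h2⟩⟩
        · exact hnr x y ⟨hb, Or.inr ⟨h1, h2⟩⟩
        · exact hne (h1.trans h2.symm)
      · rcases h1 with ⟨e1, h1, _⟩ | ⟨e1, h1⟩ <;> rcases h2 with ⟨e2, h2, _⟩ | ⟨e2, h2⟩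
        · simp only at e1 h1 e2 h2
          subst e1
          refine ⟨w k, ?_⟩
          simp only
          rw [← ham_common u k hxy w h1 h2]
        · exact absurd e1 e2
        · exact absurd e2 e1
        · simp only at h1 h2
          exact absurd (Function.update_injective u k (h1.trans h2.symm)) hxy) rfl
    (fun x => by rw [odd_degree, hd]) hij hi hj a (u k)
  simpa using this

open Classical in
theorem odd_host (n : Fin 3 → ℕ) {i j : Fin 3} (hij : i ≠ j) (hi : 0 < n i) (hj : 0 < n j) {d : ℕ}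
    (hd : 2 * d + 1 = (∑ i, n i) + 2) (i0 j0 : Fin d) (hij0 : j0 ≠ i0)
    (c : Sym2 (Option ((Fin d → Fin 3) × Bool)) → ℕ)
    (hc : IsProper (oddHost i0) c) : HasRainbow (triPend n) (oddHost i0) c := by
  by_contra hno
  have hline := odd_line n hij hi hj hd i0 c hc hno
  -- level `true`
  have htrue : ∀ u v, pal (oddHost i0) c (some (u, true)) = pal (oddHost i0) c (some (v, true)) :=
    const_of_update (fun u => pal (oddHost i0) c (some (u, true)))
      (fun u k a => hline u k true (fun x y h => by simpa using h.1) a)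
  -- level `false`
  have hqp : ∀ m, m ≠ i0 → qq i0 m = 0 ∧ pp d m = 0 := by
    intro m hm
    simp [qq, pp, hm]
  have hf1 : ∀ (u : Fin d → Fin 3) (a : Fin 3), pal (oddHost i0) c (some (Function.update u j0 a, false)) =
      pal (oddHost i0) c (some (u, false)) := by
    intro u a
    apply hline
    intro x y h
    have hne : Function.update u j0 x i0 = Function.update u j0 y i0 := by simp [hij0.symm]
    obtain ⟨_, ⟨h1, h2⟩ | ⟨h1, h2⟩⟩ := h
    · rw [h1, h2] at hne; simp [pp, qq] at hne
    · rw [h1, h2] at hne; simp [pp, qq] at hne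
  have hf2 : ∀ (u : Fin d → Fin 3) (k : Fin d) (a : Fin 3), u j0 = 1 → k ≠ j0 →
      pal (oddHost i0) c (some (Function.update u k a, false)) = pal (oddHost i0) c (some (u, false)) := by
    intro u k a hu hk
    apply hline
    intro x y h
    have h0 : Function.update u k x j0 = 1 := by simp [hk.symm, hu]
    obtain ⟨_, ⟨h1, h2⟩ | ⟨h1, h2⟩⟩ := h
    · rw [h1, (hqp j0 hij0).2] at h0; exact absurd h0 (by decide)
    · rw [h1, (hqp j0 hij0).1] at h0; exact absurd h0 (by decide)
  have hfalse : ∀ u v, pal (oddHost i0) c (some (u, false)) = pal (oddHost i0) c (some (v, false)) := by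
    have h1 := const_of_update (fun u => pal (oddHost i0) c (some (Function.update u j0 1, false)))
      (fun u k a => by
        by_cases hk : k = j0
        · subst hk; simp
        · rw [Function.update_comm hk, hf2 _ _ _ (by simp) hk])
    intro u v
    have := h1 u v
    simp only [hf1] at this
    exact this
  have hsub : ∀ u v, pal (oddHost i0) c (some (u, true)) ⊆ pal (oddHost i0) c (some (v, false)) := by
    intro u v x hx
    by_contra hx'
    have key : ∀ w : Fin d → Fin 3, ∃ w', (ham d).Adj w w' ∧ c s(some (w, true), some (w', true)) = x := by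
      intro w
      rw [htrue u w] at hx
      obtain ⟨y, hy, hxy⟩ := (mem_pal _).1 hx
      rw [adj_some_iff] at hy
      rcases hy with rfl | ⟨z, hz, ⟨hR, _⟩ | ⟨_, rfl⟩⟩
      · exfalso
        apply hx'
        rw [hfalse v w]
        refine (mem_pal _).2 ⟨some (w, true), ?_, ?_⟩
        · exact Or.inr ⟨by simp, rfl⟩
        · rw [Sym2.eq_swap]; exact hxy
      · exact absurd hR.1 (by simp)
      · exact ⟨z, hz, hxy⟩
    have hev := even_card_of_color (ham d) (c := fun e => c (e.map (fun w => some (w, true))))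
      (by
        intro w w1 w2 h1 h2 hne
        simp only [Sym2.map_mk]
        refine hc _ _ _ (Or.inl ⟨rfl, h1, fun h => by simpa using h.1⟩)
          (Or.inl ⟨rfl, h2, fun h => by simpa using h.1⟩) ?_
        intro h
        simp only [Option.some.injEq, Prod.mk.injEq, and_true] at h
        exact hne h) x (by
        intro w
        obtain ⟨w', h1, h2⟩ := key w
        exact ⟨w', h1, by simpa only [Sym2.map_mk] using h2⟩)
    rw [Fintype.card_fun, Fintype.card_fin, Fintype.card_fin, Nat.even_pow] at hev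
    exact absurd hev.1 (by decide)
  have heq : ∀ u v, pal (oddHost i0) c (some (u, true)) = pal (oddHost i0) c (some (v, false)) := by
    intro u v
    refine eq_of_subset_of_card_le (hsub u v) ?_
    rw [card_pal _ hc, card_pal _ hc, odd_degree, odd_degree]
  have hp : (oddHost i0).Adj none (some (pp d, false)) := ⟨rfl, Or.inl rfl⟩
  have hx : c s(none, some (pp d, false)) ∈ pal (oddHost i0) c (some (pp d, false)) :=
    (mem_pal _).2 ⟨none, hp.symm, by rw [Sym2.eq_swap]⟩
  have hev := even_card_of_color (oddHost i0) hc (c s(none, some (pp d, false))) (by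
    rintro (_ | ⟨u, b⟩)
    · exact ⟨_, hp, rfl⟩
    · apply (mem_pal _).1
      cases b
      · rw [hfalse u (pp d)]; exact hx
      · rw [heq u (pp d)]; exact hx)
  rw [Fintype.card_option, Fintype.card_prod, Fintype.card_bool] at hev
  exact absurd hev (by rw [Nat.not_even_iff_odd]; exact ⟨Fintype.card (Fin d → Fin 3), by ring⟩)

end Pool.Agent.H29.AR
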