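import Pool.Agent.H29.AR.Even

namespace Pool.Agent.H29.AR

open Finset

/-- A vertex of degree `S + 2` in a triangle whose opposite edge has a colour not seen by the vertex. -/
theorem star_copy {W : Type} [Fintype W] [DecidableEq W] (G : SimpleGraph W) [DecidableRel G.Adj]
    {c : Sym2 W → ℕ} (hc : IsProper G c) (n : Fin 3 → ℕ) (i : Fin 3) (hn : ∀ j, j ≠ i → n j = 0)
    (hno : ¬ HasRainbow (triPend n) G c) {v w x : W} (hvw : G.Adj v w) (hvx : G.Adj v x) (hwx : G.Adj w x)
    (hdeg : G.degree v = n i + 2) : c s(w, x) ∈ pal G c v := by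
  classical
  by_contra hmem
  apply hno
  obtain ⟨V, hV⟩ : ∃ V : Fin 3 → W, V = fun m => if m = i then v else if m = i + 1 then w else x := ⟨_, rfl⟩
  have e0 : V i = v := by simp [hV]
  have e1 : V (i + 1) = w := by
    have h1 : ∀ i : Fin 3, i + 1 ≠ i := by decide
    simp [hV, h1 i]
  have e2 : V (i + 2) = x := by
    have h1 : ∀ i : Fin 3, i + 2 ≠ i := by decide
    have h2 : ∀ i : Fin 3, i + 2 ≠ i + 1 := by decide
    simp [hV, h1 i, h2 i]
  have hcases : ∀ i j : Fin 3, j = i ∨ j = i + 1 ∨ j = i + 2 := by decide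
  have hVadj : ∀ a b, a ≠ b → G.Adj (V a) (V b) := by
    intro a b hab
    rcases hcases i a with ha | ha | ha <;> rcases hcases i b with hb | hb | hb
    · exact absurd (ha.trans hb.symm) hab
    · rw [ha, hb, e0, e1]; exact hvw
    · rw [ha, hb, e0, e2]; exact hvx
    · rw [ha, hb, e0, e1]; exact hvw.symm
    · exact absurd (ha.trans hb.symm) hab
    · rw [ha, hb, e1, e2]; exact hwx
    · rw [ha, hb, e0, e2]; exact hvx.symm
    · rw [ha, hb, e1, e2]; exact hwx.symm
    · exact absurd (ha.trans hb.symm) hab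
  obtain ⟨Tri, hTri⟩ : ∃ T : Finset ℕ, T = univ.image (fun i : Fin 3 => c s(V (i + 1), V (i + 2))) := ⟨_, rfl⟩
  have hTri2 : Tri ⊆ {c s(w, x), c s(v, x), c s(v, w)} := by
    rw [hTri]
    intro y hy
    obtain ⟨m, _, rfl⟩ := mem_image.1 hy
    rcases hcases i m with h | h | h
    · rw [h, e1, e2]; simp
    · have h1 : ∀ i : Fin 3, i + 1 + 1 = i + 2 := by decide
      have h2 : ∀ i : Fin 3, i + 1 + 2 = i := by decide
      have h3 : s(x, v) = s(v, x) := Sym2.eq_swap
      rw [h, h1, h2, e2, e0, h3]; simp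
    · have h1 : ∀ i : Fin 3, i + 2 + 1 = i := by decide
      have h2 : ∀ i : Fin 3, i + 2 + 2 = i + 1 := by decide
      rw [h, h1, h2, e0, e1]; simp
  have hcard : n i ≤ (pal G c v \ Tri).card := by
    have h1 : pal G c v \ {c s(v, x), c s(v, w)} ⊆ pal G c v \ Tri := by
      intro y hy
      rw [mem_sdiff] at hy ⊢
      refine ⟨hy.1, fun h => ?_⟩
      have := hTri2 h
      rw [mem_insert] at this
      rcases this with rfl | h'
      · exact hmem hy.1
      · exact hy.2 h'
    have h2 := le_card_sdiff {c s(v, x), c s(v, w)} (pal G c v)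
    have h3 : ({c s(v, x), c s(v, w)} : Finset ℕ).card ≤ 2 := card_le_two
    rw [card_pal G hc, hdeg] at h2
    have h4 := card_le_card h1
    omega
  have hScard : Fintype.card (Σ i, Fin (n i)) = n i := by
    rw [Fintype.card_sigma, Finset.sum_eq_single i]
    · exact Fintype.card_fin _
    · intro j _ hj
      rw [Fintype.card_fin, hn j hj]
    · intro h; exact absurd (mem_univ i) h
  have hpi : ∀ p : (Σ i, Fin (n i)), p.1 = i := by
    intro p
    by_contra h
    exact (Fin.cast (hn _ h) p.2).elim0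
  obtain ⟨f⟩ : Nonempty ((Σ i, Fin (n i)) ↪ (pal G c v \ Tri : Finset ℕ)) := by
    apply Function.Embedding.nonempty_of_card_le
    rw [hScard, Fintype.card_coe]
    exact hcard
  refine build_copy G hc n V hVadj ?_ Tri hTri (fun p => (f p : ℕ)) ?_ ?_ ?_
  · intro a b hab ha hb
    exfalso
    apply hab
    have h1 : a = i := by
      by_contra h
      rw [hn a h] at ha
      exact lt_irrefl _ ha
    have h2 : b = i := by
      by_contra h
      rw [hn b h] at hb
      exact lt_irrefl _ hb
    rw [h1, h2]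
  · intro p q h
    exact f.injective (Subtype.ext h)
  · intro p
    rw [hpi p, e0]
    exact (mem_sdiff.1 (f p).2).1
  · intro p
    exact (mem_sdiff.1 (f p).2).2

open Classical in
theorem complete_host (n : Fin 3 → ℕ) (i : Fin 3) (hn : ∀ j, j ≠ i → n j = 0) {m : ℕ} (hm : m = n i + 3)
    (hodd : Odd m) (c : Sym2 (Fin m) → ℕ) (hc : IsProper (⊤ : SimpleGraph (Fin m)) c) :
    HasRainbow (triPend n) (⊤ : SimpleGraph (Fin m)) c := by
  by_contra hno
  have hdeg : ∀ v : Fin m, (⊤ : SimpleGraph (Fin m)).degree v = n i + 2 := by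
    intro v
    rw [SimpleGraph.complete_graph_degree, Fintype.card_fin]
    omega
  have key : ∀ v w x : Fin m, w ≠ x → c s(w, x) ∈ pal (⊤ : SimpleGraph (Fin m)) c v := by
    intro v w x hwx
    by_cases h1 : v = w
    · subst h1
      exact (mem_pal _).2 ⟨x, hwx, rfl⟩
    · by_cases h2 : v = x
      · subst h2
        exact (mem_pal _).2 ⟨w, hwx.symm, by rw [Sym2.eq_swap]⟩
      · exact star_copy _ hc n i hn hno (v := v) h1 h2 hwx (hdeg v)
  have h01 : (⟨0, by omega⟩ : Fin m) ≠ ⟨1, by omega⟩ := by simp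
  have hev := even_card_of_color _ hc _ (fun v => (mem_pal _).1 (key v _ _ h01))
  rw [Fintype.card_fin] at hev
  exact (Nat.not_even_iff_odd.2 hodd) hev

/-- The complete graph with the edge `ab` subdivided. -/
def subK {m : ℕ} (a b : Fin m) : SimpleGraph (Option (Fin m)) where
  Adj x y := match x, y with
    | none, none => False
    | none, some w => w = a ∨ w = b
    | some w, none => w = a ∨ w = b
    | some w, some z => w ≠ z ∧ ¬ ((w = a ∧ z = b) ∨ (w = b ∧ z = a))
  symm := ⟨by
    rintro (_ | w) (_ | z) h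
    · exact h
    · exact h
    · exact h
    · exact ⟨h.1.symm, fun h' => h.2 (h'.elim (fun h => Or.inr ⟨h.2, h.1⟩) (fun h => Or.inl ⟨h.2, h.1⟩))⟩⟩
  loopless := ⟨by
    rintro (_ | w) h
    · exact h
    · exact h.1 rfl⟩

open Classical in
lemma subK_degree {m : ℕ} {a b : Fin m} (hab : a ≠ b) (v : Fin m) : (subK a b).degree (some v) = m - 1 := by
  rw [← SimpleGraph.card_neighborFinset_eq_degree]
  set f : Fin m → Option (Fin m) := fun w => if (v = a ∧ w = b) ∨ (v = b ∧ w = a) then none else some w with hf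
  have h1 : (subK a b).neighborFinset (some v) = (univ.erase v).image f := by
    ext y
    rw [SimpleGraph.mem_neighborFinset, mem_image]
    rcases y with _ | y
    · constructor
      · rintro (rfl | rfl)
        · exact ⟨b, by simp [hab.symm], by simp [hf]⟩
        · exact ⟨a, by simp [hab], by simp [hf]⟩
      · rintro ⟨w, _, h⟩
        by_cases hR : (v = a ∧ w = b) ∨ (v = b ∧ w = a)
        · rcases hR with ⟨h1, _⟩ | ⟨h1, _⟩
          · exact Or.inl h1
          · exact Or.inr h1
        · simp [hf, hR] at h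
    · constructor
      · rintro ⟨h1, h2⟩
        exact ⟨y, by simp [h1.symm], by simp [hf, h2]⟩
      · rintro ⟨w, hw, h⟩
        by_cases hR : (v = a ∧ w = b) ∨ (v = b ∧ w = a)
        · simp [hf, hR] at h
        · simp only [hf, hR, if_false, Option.some.injEq] at h
          subst h
          exact ⟨(ne_of_mem_erase hw).symm, hR⟩
  have h3 : Set.InjOn f (univ.erase v : Finset (Fin m)) := by
    intro w _ w' _ h
    by_cases hR : (v = a ∧ w = b) ∨ (v = b ∧ w = a) <;> by_cases hR' : (v = a ∧ w' = b) ∨ (v = b ∧ w' = a)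
    · rcases hR with ⟨h1, h2⟩ | ⟨h1, h2⟩ <;> rcases hR' with ⟨h3, h4⟩ | ⟨h3, h4⟩
      · rw [h2, h4]
      · exact absurd (h1.symm.trans h3) hab
      · exact absurd (h3.symm.trans h1) hab
      · rw [h2, h4]
    · simp [hf, hR, hR'] at h
    · simp [hf, hR, hR'] at h
    · simpa [hf, hR, hR'] using h
  rw [h1, card_image_of_injOn h3, card_erase_of_mem (mem_univ v), card_univ, Fintype.card_fin]

open Classical in
theorem subK_host (n : Fin 3 → ℕ) (i : Fin 3) (hn : ∀ j, j ≠ i → n j = 0) {m : ℕ} (hm : m = n i + 3)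
    (heven : Even m) {a b : Fin m} (hab : a ≠ b) (c : Sym2 (Option (Fin m)) → ℕ)
    (hc : IsProper (subK a b) c) : HasRainbow (triPend n) (subK a b) c := by
  by_contra hno
  have hdeg : ∀ v : Fin m, (subK a b).degree (some v) = n i + 2 := by
    intro v
    rw [subK_degree hab]
    omega
  have hm4 : 4 ≤ m := by
    rcases heven with ⟨t, ht⟩
    omega
  -- a colour of an edge between ordinary vertices is seen by every vertex outside `a, b`
  have key : ∀ v w x : Fin m, v ≠ a → v ≠ b → (subK a b).Adj (some w) (some x) →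
      c s(some w, some x) ∈ pal (subK a b) c (some v) := by
    intro v w x hva hvb hwx
    by_cases h1 : v = w
    · subst h1
      exact (mem_pal _).2 ⟨some x, hwx, rfl⟩
    · by_cases h2 : v = x
      · subst h2
        exact (mem_pal _).2 ⟨some w, hwx.symm, by rw [Sym2.eq_swap]⟩
      · exact star_copy _ hc n i hn hno (v := some v) ⟨h1, by rintro (⟨h, _⟩ | ⟨h, _⟩); exacts [hva h, hvb h]⟩
          ⟨h2, by rintro (⟨h, _⟩ | ⟨h, _⟩); exacts [hva h, hvb h]⟩ hwx (hdeg v)
  obtain ⟨v0, hv0a, hv0b⟩ : ∃ v0 : Fin m, v0 ≠ a ∧ v0 ≠ b := by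
    have h1 : ({a, b} : Finset (Fin m)).card < (univ : Finset (Fin m)).card := by
      rw [card_univ, Fintype.card_fin]
      exact lt_of_le_of_lt card_le_two (by omega)
    obtain ⟨v0, _, h⟩ := exists_mem_notMem_of_card_lt_card h1
    simp only [mem_insert, mem_singleton, not_or] at h
    exact ⟨v0, h.1, h.2⟩
  set C := pal (subK a b) c (some v0) with hC
  have hout : ∀ v : Fin m, v ≠ a → v ≠ b → pal (subK a b) c (some v) = C := by
    intro v hva hvb
    refine eq_of_subset_of_card_le ?_ (by rw [hC, card_pal _ hc, card_pal _ hc, hdeg, hdeg])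
    intro x hx
    obtain ⟨w, hw, rfl⟩ := (mem_pal _).1 hx
    rcases w with _ | z
    · rcases hw with h | h
      · exact absurd h hva
      · exact absurd h hvb
    · exact key v0 v z hv0a hv0b hw
  -- the two ends of the subdivided edge
  have hend : ∀ a' b' : Fin m, a' ≠ b' → (∀ w, w ≠ a' ∧ w ≠ b' ↔ w ≠ a ∧ w ≠ b) →
      (∀ w z : Fin m, w ≠ z → ¬ (w = a' ∧ z = b') → ¬ (w = b' ∧ z = a') → (subK a b).Adj (some w) (some z)) →
      (¬ (subK a b).Adj (some a') (some b')) → C ⊆ pal (subK a b) c (some a') := by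
    intro a' b' hab' hout' hadj hnadj x hx
    by_contra hxa
    have hsee : ∀ v : Fin m, v ≠ a' → v ≠ b' → ∃ z : Fin m, (subK a b).Adj (some v) (some z) ∧ c s(some v, some z) = x := by
      intro v h1 h2
      obtain ⟨h3, h4⟩ := (hout' v).1 ⟨h1, h2⟩
      rw [← hout v h3 h4] at hx
      obtain ⟨w, hw, hwx⟩ := (mem_pal _).1 hx
      rcases w with _ | z
      · rcases hw with h | h
        · exact absurd h h3
        · exact absurd h h4
      · exact ⟨z, hw, hwx⟩
    have hza : ∀ v z : Fin m, (subK a b).Adj (some v) (some z) → c s(some v, some z) = x → z ≠ a' := by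
      rintro v z hvz hx' rfl
      exact hxa ((mem_pal _).2 ⟨some v, hvz.symm, by rw [Sym2.eq_swap]; exact hx'⟩)
    by_cases hb : ∃ z : Fin m, (subK a b).Adj (some b') (some z) ∧ c s(some b', some z) = x
    · -- all vertices but `a'` are matched
      have hev := even_card_of_color ((subK a b).comap (fun v : {v : Fin m // v ≠ a'} => some v.1))
        (c := fun e => c (e.map (fun v : {v : Fin m // v ≠ a'} => some v.1)))
        (by
          intro v w w' h1 h2 hne
          simp only [Sym2.map_mk]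
          refine hc _ _ _ h1 h2 ?_
          intro h
          exact hne (Subtype.ext (Option.some.inj h))) x (by
          rintro ⟨v, hv⟩
          have : ∃ z : Fin m, (subK a b).Adj (some v) (some z) ∧ c s(some v, some z) = x := by
            by_cases hvb : v = b'
            · rw [hvb]; exact hb
            · exact hsee v hv hvb
          obtain ⟨z, hz, hzx⟩ := this
          exact ⟨⟨z, hza v z hz hzx⟩, hz, by simpa only [Sym2.map_mk] using hzx⟩)
      rw [Fintype.card_subtype_compl, Fintype.card_subtype_eq, Fintype.card_fin] at hev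
      rcases heven with ⟨t, ht⟩
      rcases hev with ⟨t', ht'⟩
      omega
    · obtain ⟨v1, h1, h2⟩ : ∃ v1 : Fin m, v1 ≠ a' ∧ v1 ≠ b' := ⟨v0, (hout' v0).2 ⟨hv0a, hv0b⟩⟩
      obtain ⟨z, hz, hzx⟩ := hsee v1 h1 h2
      have h3 := hza v1 z hz hzx
      have h4 : z ≠ b' := by
        rintro rfl
        exact hb ⟨v1, hz.symm, by rw [Sym2.eq_swap]; exact hzx⟩
      apply hxa
      rw [← hzx]
      exact star_copy _ hc n i hn hno (v := some a') (hadj a' v1 h1.symm (fun h => h2 h.2) (fun h => hab' h.1))
        (hadj a' z h3.symm (fun h => h4 h.2) (fun h => hab' h.1)) hz (hdeg a')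
  have hA : pal (subK a b) c (some a) = C := by
    refine (eq_of_subset_of_card_le (hend a b hab (fun w => Iff.rfl) (fun w z h1 h2 h3 => ⟨h1, fun h => h.elim h2 h3⟩)
      (fun h => h.2 (Or.inl ⟨rfl, rfl⟩))) (by rw [hC, card_pal _ hc, card_pal _ hc, hdeg, hdeg])).symm
  have hB : pal (subK a b) c (some b) = C := by
    refine (eq_of_subset_of_card_le (hend b a hab.symm (fun w => and_comm) (fun w z h1 h2 h3 => ⟨h1, fun h => h.elim h3 h2⟩)
      (fun h => h.2 (Or.inr ⟨rfl, rfl⟩))) (by rw [hC, card_pal _ hc, card_pal _ hc, hdeg, hdeg])).symm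
  have hna : (subK a b).Adj none (some a) := Or.inl rfl
  have hx : c s(none, some a) ∈ C := by
    rw [← hA]
    exact (mem_pal _).2 ⟨none, hna.symm, by rw [Sym2.eq_swap]⟩
  have hev := even_card_of_color (subK a b) hc (c s(none, some a)) (by
    rintro (_ | v)
    · exact ⟨_, hna, rfl⟩
    · apply (mem_pal _).1
      by_cases h1 : v = a
      · rw [h1, hA]; exact hx
      · by_cases h2 : v = b
        · rw [h2, hB]; exact hx
        · rw [hout v h1 h2]; exact hx)
  rw [Fintype.card_option, Fintype.card_fin] at hev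
  rcases heven with ⟨t, ht⟩
  rcases hev with ⟨t', ht'⟩
  omega

end Pool.Agent.H29.AR
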